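import Pool.Agent.Helper6.H.Defs

/-! Lempel-Ziv count: reduced words with few distinct windows of length `g` are few. -/

namespace Pool.Agent.Helper3.H

open Finset Equiv Pool.Agent.Helper90.W2 Pool.Agent.Helper6.H

variable {k : ℕ}

theorem flip_flip (s : Fin k × Bool) : flip (flip s) = s := by
  simp [Helper6.H.flip]

theorem flip_ne (s : Fin k × Bool) : s ≠ flip s := by
  intro h
  have := congrArg Prod.snd h
  simp [Helper6.H.flip] at this

/-- direct match of two windows -/
def Dir (r : ℕ → Fin k × Bool) (g t s : ℕ) : Prop := ∀ i < g, r (t + i) = r (s + i)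

/-- inverse match of two windows -/
def Inv (r : ℕ → Fin k × Bool) (g t s : ℕ) : Prop :=
  ∀ i < g, r (t + i) = flip (r (s + g - 1 - i))

/-- the window starting at `s` can be encoded by a pointer -/
def Ptr (r : ℕ → Fin k × Bool) (g L s : ℕ) : Prop :=
  s + g ≤ L ∧ ∃ t < s, Dir r g t s ∨ Inv r g t s

open Classical in
/-- the number of positions still to be skipped -/
noncomputable def cnt (r : ℕ → Fin k × Bool) (g L : ℕ) : ℕ → ℕ
  | 0 => 0
  | s + 1 => if 0 < cnt r g L s then cnt r g L s - 1 else if Ptr r g L s then g - 1 else 0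

open Classical in
/-- the value of a pointer -/
noncomputable def ptrVal (r : ℕ → Fin k × Bool) (g s : ℕ) : ℕ × Bool :=
  if h : ∃ t < s, Dir r g t s then (Classical.choose h, true)
  else if h : ∃ t < s, Inv r g t s then (Classical.choose h, false) else (0, true)

theorem ptrVal_spec {r : ℕ → Fin k × Bool} {g L s : ℕ} (h : Ptr r g L s) :
    (ptrVal r g s).1 < s ∧
      (((ptrVal r g s).2 = true ∧ Dir r g (ptrVal r g s).1 s) ∨
        ((ptrVal r g s).2 = false ∧ Inv r g (ptrVal r g s).1 s)) := by
  obtain ⟨-, t, ht, h⟩ := h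
  unfold ptrVal
  by_cases h1 : ∃ t < s, Dir r g t s
  · rw [dif_pos h1]
    have := Classical.choose_spec h1
    exact ⟨this.1, Or.inl ⟨rfl, this.2⟩⟩
  · rw [dif_neg h1]
    have h2 : ∃ t < s, Inv r g t s := by
      rcases h with h | h
      · exact absurd ⟨t, ht, h⟩ h1
      · exact ⟨t, ht, h⟩
    rw [dif_pos h2]
    have := Classical.choose_spec h2
    exact ⟨this.1, Or.inr ⟨rfl, this.2⟩⟩

theorem cnt_pos_spec {r : ℕ → Fin k × Bool} {g L : ℕ} (hg : 0 < g) :
    ∀ j, 0 < cnt r g L j → ∃ s < j, cnt r g L s = 0 ∧ Ptr r g L s ∧ j + cnt r g L j = s + g := by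
  intro j
  induction j with
  | zero => intro h; simp [cnt] at h
  | succ j ih =>
    intro h
    by_cases h0 : 0 < cnt r g L j
    · obtain ⟨s, hs, h1, h2, h3⟩ := ih h0
      refine ⟨s, by omega, h1, h2, ?_⟩
      rw [cnt, if_pos h0]
      omega
    · rw [cnt, if_neg h0] at h ⊢
      by_cases hp : Ptr r g L j
      · refine ⟨j, by omega, by omega, hp, ?_⟩
        rw [if_pos hp]; omega
      · rw [if_neg hp] at h; omega

theorem cnt_end {r : ℕ → Fin k × Bool} {g L : ℕ} (hg : 0 < g) : cnt r g L L = 0 := by
  by_contra h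
  obtain ⟨s, _, _, h2, h3⟩ := cnt_pos_spec hg L (Nat.pos_of_ne_zero h)
  have := h2.1
  omega

/-- an overlapping inverse match does not occur in a reduced word -/
theorem inv_disjoint {r : ℕ → Fin k × Bool} {g L t s : ℕ}
    (hr : ∀ t, t + 1 < L → r (t + 1) ≠ flip (r t)) (hts : t < s) (hs : s + g ≤ L)
    (h : Inv r g t s) : t + g ≤ s := by
  by_contra hc
  push Not at hc
  rcases Nat.even_or_odd' (t + s + g - 1) with ⟨m, hm | hm⟩
  · have := h (m - t) (by omega)
    have h1 : t + (m - t) = m := by omega
    have h2 : s + g - 1 - (m - t) = m := by omega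
    rw [h1, h2] at this
    exact flip_ne _ this
  · have := h (m + 1 - t) (by omega)
    have h1 : t + (m + 1 - t) = m + 1 := by omega
    have h2 : s + g - 1 - (m + 1 - t) = m := by omega
    rw [h1, h2] at this
    exact hr m (by omega) this

open Classical in
/-- the code -/
noncomputable def code (r : ℕ → Fin k × Bool) (g L : ℕ) (s : Fin L) :
    Option ((Fin k × Bool) ⊕ (Fin (L + 1) × Bool)) :=
  if 0 < cnt r g L s then none
  else if Ptr r g L s then
    some (Sum.inr (⟨min (ptrVal r g s).1 L, by omega⟩, (ptrVal r g s).2))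
  else some (Sum.inl (r s))

theorem code_of_pos {r : ℕ → Fin k × Bool} {g L : ℕ} {s : Fin L} (h : 0 < cnt r g L s) :
    code r g L s = none := by rw [code, if_pos h]

theorem code_of_ptr {r : ℕ → Fin k × Bool} {g L : ℕ} {s : Fin L} (h : cnt r g L s = 0)
    (hp : Ptr r g L s) : code r g L s =
      some (Sum.inr (⟨min (ptrVal r g s).1 L, by omega⟩, (ptrVal r g s).2)) := by
  rw [code, if_neg (by omega), if_pos hp]

theorem code_of_letter {r : ℕ → Fin k × Bool} {g L : ℕ} {s : Fin L} (h : cnt r g L s = 0)
    (hp : ¬ Ptr r g L s) : code r g L s = some (Sum.inl (r s)) := by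
  rw [code, if_neg (by omega), if_neg hp]

theorem cnt_eq {r r' : ℕ → Fin k × Bool} {g L : ℕ} (h : code r g L = code r' g L) :
    ∀ j ≤ L, cnt r g L j = cnt r' g L j := by
  intro j
  induction j with
  | zero => intro _; simp [cnt]
  | succ j ih =>
    intro hj
    have ih' := ih (by omega)
    have hc := congrFun h ⟨j, by omega⟩
    rw [cnt, cnt, ← ih']
    by_cases h0 : 0 < cnt r g L j
    · rw [if_pos h0, if_pos h0]
    · rw [if_neg h0, if_neg h0]
      have h1 : cnt r g L j = 0 := by omega
      have h1' : cnt r' g L j = 0 := by omega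
      by_cases hp : Ptr r g L j
      · by_cases hp' : Ptr r' g L j
        · rw [if_pos hp, if_pos hp']
        · rw [code_of_ptr (s := ⟨j, by omega⟩) h1 hp, code_of_letter (s := ⟨j, by omega⟩) h1' hp']
            at hc
          simp at hc
      · by_cases hp' : Ptr r' g L j
        · rw [code_of_letter (s := ⟨j, by omega⟩) h1 hp, code_of_ptr (s := ⟨j, by omega⟩) h1' hp']
            at hc
          simp at hc
        · rw [if_neg hp, if_neg hp']

theorem code_inj {r r' : ℕ → Fin k × Bool} {g L : ℕ} (hg : 0 < g)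
    (hr : ∀ t, t + 1 < L → r (t + 1) ≠ flip (r t))
    (h : code r g L = code r' g L) :
    ∀ j < L, r j = r' j := by
  have hcnt := cnt_eq h
  intro j
  induction j using Nat.strong_induction_on with
  | _ j ih =>
  intro hj
  -- the pointer case
  have key : ∀ s ≤ j, j < s + g → cnt r g L s = 0 → Ptr r g L s → r j = r' j := by
    intro s hsj hjs h0 hp
    have hsL : s < L := by omega
    have h0' : cnt r' g L s = 0 := by rw [← hcnt s hsL.le]; exact h0
    have hc := congrFun h ⟨s, hsL⟩
    have hp' : Ptr r' g L s := by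
      by_contra hp'
      rw [code_of_ptr (s := ⟨s, hsL⟩) h0 hp, code_of_letter (s := ⟨s, hsL⟩) h0' hp'] at hc
      simp at hc
    rw [code_of_ptr (s := ⟨s, hsL⟩) h0 hp, code_of_ptr (s := ⟨s, hsL⟩) h0' hp'] at hc
    simp only [Option.some.injEq, Sum.inr.injEq, Prod.mk.injEq, Fin.mk.injEq] at hc
    obtain ⟨hlt, hv⟩ := ptrVal_spec hp
    obtain ⟨hlt', hv'⟩ := ptrVal_spec hp'
    have e1 : (ptrVal r g s).1 = (ptrVal r' g s).1 := by
      have := hc.1; omega
    have e2 := hc.2
    rcases hv with ⟨hb, hd⟩ | ⟨hb, hd⟩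
    · rcases hv' with ⟨hb', hd'⟩ | ⟨hb', hd'⟩
      · have a1 := hd (j - s) (by omega)
        have a2 := hd' (j - s) (by omega)
        have e3 : s + (j - s) = j := by omega
        rw [e3] at a1 a2
        rw [← a1, ← a2, ← e1]
        exact ih _ (by omega) (by omega)
      · rw [hb, hb'] at e2; simp at e2
    · rcases hv' with ⟨hb', hd'⟩ | ⟨hb', hd'⟩
      · rw [hb, hb'] at e2; simp at e2
      · have b1 := inv_disjoint hr hlt hp.1 hd
        have a1 := hd (s + g - 1 - j) (by omega)
        have a2 := hd' (s + g - 1 - j) (by omega)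
        have e3 : s + g - 1 - (s + g - 1 - j) = j := by omega
        rw [e3] at a1 a2
        rw [← flip_flip (r j), ← flip_flip (r' j), ← a1, ← a2, ← e1]
        rw [ih _ (by omega) (by omega)]
  by_cases h0 : 0 < cnt r g L j
  · obtain ⟨s, hs, h1, h2, h3⟩ := cnt_pos_spec hg j h0
    exact key s hs.le (by omega) h1 h2
  · have h0' : cnt r g L j = 0 := by omega
    by_cases hp : Ptr r g L j
    · exact key j le_rfl (by omega) h0' hp
    · have h0'' : cnt r' g L j = 0 := by rw [← hcnt j hj.le]; exact h0'
      have hc := congrFun h ⟨j, hj⟩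
      rw [code_of_letter (s := ⟨j, hj⟩) h0' hp] at hc
      by_cases hp' : Ptr r' g L j
      · rw [code_of_ptr (s := ⟨j, hj⟩) h0'' hp'] at hc
        simp at hc
      · rw [code_of_letter (s := ⟨j, hj⟩) h0'' hp'] at hc
        simpa using hc

open Classical in
/-- the number of pointers -/
theorem card_ptr {r : ℕ → Fin k × Bool} {g L : ℕ} (hg : 0 < g) :
    ((range L).filter fun s => cnt r g L s = 0 ∧ Ptr r g L s).card ≤ L / g := by
  have key : ∀ j, ((range j).filter fun s => cnt r g L s = 0 ∧ Ptr r g L s).card * g ≤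
      j + cnt r g L j := by
    intro j
    induction j with
    | zero => simp
    | succ j ih =>
      rw [range_add_one, filter_insert]
      by_cases h0 : 0 < cnt r g L j
      · rw [if_neg (by omega), cnt, if_pos h0]; omega
      · rw [cnt, if_neg h0]
        by_cases hp : Ptr r g L j
        · rw [if_pos ⟨by omega, hp⟩, if_pos hp, card_insert_of_notMem (by simp)]
          have : cnt r g L j = 0 := by omega
          rw [add_mul]; omega
        · rw [if_neg (by tauto), if_neg hp]; omega
  have := key L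
  rw [cnt_end hg] at this
  exact (Nat.le_div_iff_mul_le hg).2 (by simpa using this)

open Classical in
/-- the number of letters -/
theorem card_letter {r : ℕ → Fin k × Bool} {g L : ℕ} :
    ((range L).filter fun s => cnt r g L s = 0 ∧ ¬ Ptr r g L s).card ≤
      (firstPos r g L).card + g := by
  have hsub : ((range L).filter fun s => cnt r g L s = 0 ∧ ¬ Ptr r g L s) ⊆
      firstPos r g L ∪ Ico (L - g) L := by
    intro s hs
    simp only [mem_filter, mem_range] at hs
    obtain ⟨hsL, -, hp⟩ := hs
    by_cases h : s + g ≤ L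
    · refine mem_union_left _ ?_
      simp only [firstPos, mem_filter, mem_range]
      refine ⟨by omega, ?_⟩
      intro t ht
      constructor
      · intro hd; exact hp ⟨h, t, ht, Or.inl hd⟩
      · intro hd; exact hp ⟨h, t, ht, Or.inr hd⟩
    · refine mem_union_right _ ?_
      simp only [mem_Ico]; omega
  calc _ ≤ _ := card_le_card hsub
    _ ≤ _ := card_union_le _ _
    _ ≤ _ := by rw [Nat.card_Ico]; omega

open Classical in
/-- counting codes -/
theorem card_codes {X Y : Type*} [Fintype X] [Fintype Y] (L a b : ℕ) (x y : ℝ) (hx : 1 ≤ x)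
    (hy : 1 ≤ y) (hX : (Fintype.card X : ℝ) ≤ x) (hY : (Fintype.card Y : ℝ) ≤ y)
    (S : Finset (Fin L → Option (X ⊕ Y)))
    (h1 : ∀ f ∈ S, (univ.filter fun s => ∃ c, f s = some (Sum.inl c)).card ≤ a)
    (h2 : ∀ f ∈ S, (univ.filter fun s => ∃ c, f s = some (Sum.inr c)).card ≤ b) :
    (S.card : ℝ) ≤ 3 ^ L * x ^ a * y ^ b := by
  classical
  let w : Option (X ⊕ Y) → ℝ := fun o => match o with
    | none => 1
    | some (Sum.inl _) => x⁻¹
    | some (Sum.inr _) => y⁻¹
  have hx0 : 0 < x := by linarith
  have hy0 : 0 < y := by linarith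
  have hw : ∀ o, w o = (if ∃ c, o = some (Sum.inl c) then x⁻¹ else 1) *
      (if ∃ c, o = some (Sum.inr c) then y⁻¹ else 1) := by
    intro o
    rcases o with _ | c | c <;> simp [w]
  have hw0 : ∀ o, 0 ≤ w o := by
    intro o
    rcases o with _ | c | c
    · simp [w]
    · simp only [w]; positivity
    · simp only [w]; positivity
  have hprod : ∀ f ∈ S, 1 ≤ x ^ a * y ^ b * ∏ s, w (f s) := by
    intro f hf
    have e : ∏ s, w (f s) = (x⁻¹) ^ (univ.filter fun s => ∃ c, f s = some (Sum.inl c)).card *
        (y⁻¹) ^ (univ.filter fun s => ∃ c, f s = some (Sum.inr c)).card := by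
      simp_rw [hw]
      rw [prod_mul_distrib, prod_ite, prod_ite]
      simp
    rw [e, inv_pow, inv_pow]
    have e1 : (x ^ (univ.filter fun s => ∃ c, f s = some (Sum.inl c)).card) ≤ x ^ a :=
      pow_le_pow_right₀ hx (h1 f hf)
    have e2 : (y ^ (univ.filter fun s => ∃ c, f s = some (Sum.inr c)).card) ≤ y ^ b :=
      pow_le_pow_right₀ hy (h2 f hf)
    have p1 : 0 < x ^ (univ.filter fun s => ∃ c, f s = some (Sum.inl c)).card := by positivity
    have p2 : 0 < y ^ (univ.filter fun s => ∃ c, f s = some (Sum.inr c)).card := by positivity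
    calc (1 : ℝ) = (x ^ (univ.filter fun s => ∃ c, f s = some (Sum.inl c)).card *
          y ^ (univ.filter fun s => ∃ c, f s = some (Sum.inr c)).card) *
          ((x ^ (univ.filter fun s => ∃ c, f s = some (Sum.inl c)).card)⁻¹ *
          (y ^ (univ.filter fun s => ∃ c, f s = some (Sum.inr c)).card)⁻¹) := by
            field_simp
      _ ≤ _ := by gcongr
  have hsum : ∑ f : Fin L → Option (X ⊕ Y), ∏ s, w (f s) = (∑ o, w o) ^ L := by
    have := (Finset.prod_univ_sum (fun _ : Fin L => (univ : Finset (Option (X ⊕ Y))))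
      (fun _ o => w o))
    rw [prod_const, card_univ, Fintype.card_fin, Fintype.piFinset_univ] at this
    exact this.symm
  have hW : ∑ o, w o ≤ 3 := by
    rw [Fintype.sum_option, Fintype.sum_sum_type]
    simp only [w, sum_const, card_univ, nsmul_eq_mul]
    have e1 : (Fintype.card X : ℝ) * x⁻¹ ≤ 1 := by
      rw [← div_eq_mul_inv, div_le_one hx0]; exact hX
    have e2 : (Fintype.card Y : ℝ) * y⁻¹ ≤ 1 := by
      rw [← div_eq_mul_inv, div_le_one hy0]; exact hY
    linarith
  have hW0 : 0 ≤ ∑ o, w o := sum_nonneg fun o _ => hw0 o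
  calc (S.card : ℝ) = ∑ f ∈ S, (1 : ℝ) := by simp
    _ ≤ ∑ f ∈ S, x ^ a * y ^ b * ∏ s, w (f s) := sum_le_sum hprod
    _ ≤ ∑ f : Fin L → Option (X ⊕ Y), x ^ a * y ^ b * ∏ s, w (f s) := by
        apply sum_le_sum_of_subset_of_nonneg (subset_univ _)
        intro f _ _
        have : 0 ≤ ∏ s, w (f s) := prod_nonneg fun s _ => hw0 _
        positivity
    _ = x ^ a * y ^ b * (∑ o, w o) ^ L := by rw [← mul_sum, hsum]
    _ ≤ x ^ a * y ^ b * 3 ^ L := by gcongr
    _ = _ := by ring

open Classical in
/-- reduced words of length `L` with at most `A` positions of new windows are few -/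
theorem lz_count {k : ℕ} (L g A : ℕ) (hk : 0 < k) (hg : 0 < g) (d : Fin k × Bool) :
    (Nat.card {v : Fin L → Fin k × Bool //
      (∀ t (h : t + 1 < L), v ⟨t + 1, h⟩ ≠ flip (v ⟨t, by omega⟩)) ∧
      (firstPos (fun t => if h : t < L then v ⟨t, h⟩ else d) g L).card ≤ A} : ℝ) ≤
      4 ^ L * (2 * k) ^ (A + g) * (2 * L + 2) ^ (L / g + 1) := by
  classical
  set P : (Fin L → Fin k × Bool) → Prop := fun v =>
    (∀ t (h : t + 1 < L), v ⟨t + 1, h⟩ ≠ flip (v ⟨t, by omega⟩)) ∧
      (firstPos (fun t => if h : t < L then v ⟨t, h⟩ else d) g L).card ≤ A with hP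
  let ev : (Fin L → Fin k × Bool) → ℕ → Fin k × Bool := fun v t =>
    if h : t < L then v ⟨t, h⟩ else d
  let C : (Fin L → Fin k × Bool) → (Fin L → Option ((Fin k × Bool) ⊕ (Fin (L + 1) × Bool))) :=
    fun v => code (ev v) g L
  have hred : ∀ v, P v → ∀ t, t + 1 < L → ev v (t + 1) ≠ flip (ev v t) := by
    intro v hv t ht
    have := hv.1 t ht
    simp only [ev]
    rw [dif_pos ht, dif_pos (show t < L by omega)]
    exact this
  have hinj : Set.InjOn C (univ.filter P : Finset (Fin L → Fin k × Bool)) := by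
    intro v hv v' hv' h
    simp only [coe_filter, mem_univ, true_and, Set.mem_ofPred_eq] at hv hv'
    funext j
    have := code_inj hg (hred v hv) h j j.2
    simpa [ev] using this
  have hcard : Nat.card {v : Fin L → Fin k × Bool // P v} =
      ((univ.filter P).image C).card := by
    rw [card_image_of_injOn hinj, Nat.card_eq_fintype_card, Fintype.card_subtype]
  rw [hcard]
  have hfin : ∀ (Q : ℕ → Prop) [DecidablePred Q], (univ.filter fun s : Fin L => Q s).card =
      ((range L).filter Q).card := by
    intro Q _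
    refine card_bij (fun s _ => (s : ℕ)) ?_ ?_ ?_
    · intro s hs
      simp only [mem_filter, mem_univ, true_and, mem_range] at hs ⊢
      exact ⟨s.2, hs⟩
    · intro s _ s' _ h
      exact Fin.ext h
    · intro s hs
      simp only [mem_filter, mem_range] at hs
      exact ⟨⟨s, hs.1⟩, by simpa using hs.2, rfl⟩
  have key := card_codes (X := Fin k × Bool) (Y := Fin (L + 1) × Bool) L (A + g) (L / g)
    (2 * k) (2 * L + 2) (by
      have : (1 : ℝ) ≤ k := by exact_mod_cast hk
      linarith) (by
      have : (0 : ℝ) ≤ L := by positivity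
      linarith) (by
      simp [mul_comm]) (by
      simp; linarith) ((univ.filter P).image C) (by
      intro f hf
      simp only [mem_image, mem_filter, mem_univ, true_and] at hf
      obtain ⟨v, hv, rfl⟩ := hf
      refine le_trans (le_of_eq ?_) ((card_letter (r := ev v) (g := g) (L := L)).trans
        (Nat.add_le_add_right hv.2 g))
      rw [← hfin]
      congr 1
      ext s
      simp only [mem_filter, mem_univ, true_and, C]
      by_cases h0 : 0 < cnt (ev v) g L s
      · rw [code_of_pos h0]; simp; omega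
      · have h0' : cnt (ev v) g L s = 0 := by omega
        by_cases hp : Ptr (ev v) g L s
        · rw [code_of_ptr h0' hp]; simp [h0', hp]
        · rw [code_of_letter h0' hp]; simp [h0', hp]) (by
      intro f hf
      simp only [mem_image, mem_filter, mem_univ, true_and] at hf
      obtain ⟨v, hv, rfl⟩ := hf
      refine le_trans (le_of_eq ?_) (card_ptr (r := ev v) (g := g) (L := L) hg)
      rw [← hfin]
      congr 1
      ext s
      simp only [mem_filter, mem_univ, true_and, C]
      by_cases h0 : 0 < cnt (ev v) g L s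
      · rw [code_of_pos h0]; simp; omega
      · have h0' : cnt (ev v) g L s = 0 := by omega
        by_cases hp : Ptr (ev v) g L s
        · rw [code_of_ptr h0' hp]; simp [h0', hp]
        · rw [code_of_letter h0' hp]; simp [h0', hp])
  refine key.trans ?_
  have hL : (1 : ℝ) ≤ 2 * L + 2 := by
    have : (0 : ℝ) ≤ L := by positivity
    linarith
  gcongr
  · norm_num
  · omega

end Pool.Agent.Helper3.H
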